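import Pool.Agent.W533.PP.Stm

set_option autoImplicit false

namespace Pool.Agent.W111.PP

open Finset
open scoped Classical
open Pool.Agent.W533.PP

theorem act_last {n : ℕ} (τ : Equiv.Perm (Fin (n+1))) (hτ : Plane τ) :
    Act τ ((τ (Fin.last n)).val + 1) := by
  intro i j k hij hk h
  obtain ⟨h1, h2, h3⟩ := h
  have hi : i ≠ Fin.last n := by
    intro h
    rw [h] at hij
    exact absurd hij (not_lt.2 (Fin.le_last j))
  have hik : (τ i).val ≠ (τ (Fin.last n)).val := fun h => hi (τ.injective (Fin.ext h))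
  have hk2 : k ≠ Fin.last n := by
    intro h
    rw [h] at h3
    omega
  have hk3 : k < Fin.last n := lt_of_le_of_ne (Fin.le_last k) hk2
  refine hτ i j k (Fin.last n) hij hk hk3 ⟨?_, ?_, ?_⟩
  · exact Fin.lt_def.2 h1
  · exact Fin.lt_def.2 (by omega)
  · exact Fin.lt_def.2 (by omega)

theorem plab (h : PACT) : PLAB := by
  intro n τ hτ v _
  have hv : v.val < n + 2 := v.2
  have hk : kL (ins v τ) = ((aS τ).filter (fun s => v.val ≤ s)).card := by
    unfold kL
    rw [ins_last]
    symm
    refine Finset.card_bij (fun s _ => s + 1) ?_ ?_ ?_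
    · intro s hs
      simp only [aS, Finset.mem_filter, Finset.mem_range] at hs
      obtain ⟨⟨h1, h2⟩, h3⟩ := hs
      rw [Finset.mem_filter, Finset.mem_Ico]
      refine ⟨⟨by omega, by omega⟩, (h n τ v (s + 1)).2 ⟨?_, ?_⟩⟩
      · rw [if_neg (by omega), Nat.add_sub_cancel]
        exact h2
      · rintro ⟨_, h4⟩
        omega
    · intro a _ b _ hab
      exact Nat.succ.inj hab
    · intro s hs
      rw [Finset.mem_filter, Finset.mem_Ico] at hs
      obtain ⟨⟨h1, h2⟩, h3⟩ := hs
      have h4 := ((h n τ v s).1 h3).1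
      rw [if_neg (by omega)] at h4
      refine ⟨s - 1, ?_, by omega⟩
      simp only [aS, Finset.mem_filter, Finset.mem_range]
      exact ⟨⟨by omega, h4⟩, by omega⟩
  refine ⟨fun hvL => ⟨?_, hk⟩, fun hvL => ⟨?_, hk⟩⟩
  · unfold hL
    rw [ins_last]
    congr 1
    ext s
    simp only [aS, Finset.mem_filter, Finset.mem_range]
    constructor
    · rintro ⟨h1, h2⟩
      have h3 := ((h n τ v s).1 h2).1
      rw [if_pos (by omega)] at h3
      exact ⟨⟨by omega, h3⟩, by omega⟩
    · rintro ⟨⟨_, h2⟩, h3⟩
      refine ⟨by omega, (h n τ v s).2 ⟨?_, ?_⟩⟩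
      · rw [if_pos h3]
        exact h2
      · rintro ⟨h4, h5⟩
        omega
  · unfold hL
    rw [ins_last]
    have h1 : (Finset.range (v.val + 1)).filter (fun s => Act (ins v τ) s) =
        insert ((τ (Fin.last n)).val + 1)
          ((Finset.range ((τ (Fin.last n)).val + 1)).filter (fun s => Act τ s)) := by
      ext s
      simp only [Finset.mem_insert, Finset.mem_filter, Finset.mem_range]
      constructor
      · rintro ⟨h1, h2⟩
        obtain ⟨h3, h4⟩ := (h n τ v s).1 h2
        rw [if_pos (by omega)] at h3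
        by_cases h5 : s = (τ (Fin.last n)).val + 1
        · exact Or.inl h5
        · refine Or.inr ⟨?_, h3⟩
          by_contra h6
          exact h4 ⟨by omega, by omega⟩
      · rintro (rfl | ⟨h1, h2⟩)
        · refine ⟨by omega, (h n τ v _).2 ⟨?_, ?_⟩⟩
          · rw [if_pos (by omega)]
            exact act_last τ hτ
          · rintro ⟨h4, _⟩
            omega
        · refine ⟨by omega, (h n τ v _).2 ⟨?_, ?_⟩⟩
          · rw [if_pos (by omega)]
            exact h2
          · rintro ⟨h4, _⟩
            omega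
    rw [h1, Finset.card_insert_of_notMem]
    simp

end Pool.Agent.W111.PP
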